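import Pool.Agent.Lib.MP_43d240_ag.H56.Defs

/-!
# Project PI, chapter PAR, module C5

The invariant derivation of `k(E)` preserves all valuation rings over `k`; the differential of a
point is a constant. The results of other modules are hypotheses here.
-/

set_option autoImplicit false

namespace PiPar.H58

open WeierstrassCurve WeierstrassCurve.Affine Polynomial

section gen

variable {k : Type*} [Field k] {F : Type*} [Field F] [Algebra k F]

lemma mem_of_sq_mem (A : ValuationSubring F) {y : F} (h : y ^ 2 ∈ A) : y ∈ A := by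
  rw [← ValuationSubring.valuation_le_one_iff] at h ⊢
  rw [map_pow] at h
  by_contra hc
  rw [not_le] at hc
  exact absurd h (not_le.2 (one_lt_pow₀ hc two_ne_zero))

lemma y_mem (A : ValuationSubring F) {x y : F} (h : y ^ 2 = x ^ 3 - x) (hx : x ∈ A) : y ∈ A := by
  apply mem_of_sq_mem A
  rw [h]
  exact sub_mem (A.pow_mem hx 3) hx

/-- the element `g = D x / y` lies in every valuation ring preserved by `D` (case `x ∈ A`) -/
lemma g_mem_of_mem [CharZero F] (A : ValuationSubring F) (hk : ∀ c : k, algebraMap k F c ∈ A)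
    (D : Derivation k F F) (hD : ∀ f ∈ A, D f ∈ A) {x y : F} (h : y ^ 2 = x ^ 3 - x)
    (hx : x ∈ A) : D x / y ∈ A := by
  have hy := y_mem A h hx
  by_cases hu : y⁻¹ ∈ A
  · rw [div_eq_mul_inv]
    exact A.mul_mem _ _ (hD x hx) hu
  · -- `y` is in the maximal ideal
    have hy0 : y ≠ 0 := by
      rintro rfl
      exact hu (by simpa using A.zero_mem)
    have hvy : A.valuation y < 1 := by
      rw [← ValuationSubring.valuation_le_one_iff] at hu
      rw [map_inv₀, not_le] at hu
      exact (one_lt_inv₀ (by simpa [pos_iff_ne_zero] using hy0)).1 hu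
    have hrel : 2 * y * D y = (3 * x ^ 2 - 1) * D x := by
      have h1 := congrArg D h
      simp only [Derivation.leibniz_pow, map_sub, smul_eq_mul, nsmul_eq_mul, Nat.cast_ofNat] at h1
      ring_nf at h1 ⊢
      linear_combination h1
    have hv3 : A.valuation (3 * x ^ 2 - 1) = 1 := by
      have hxx : A.valuation x * A.valuation (x ^ 2 - 1) < 1 := by
        have : A.valuation (y ^ 2) < 1 := by
          rw [map_pow]
          exact pow_lt_one₀ zero_le' hvy two_ne_zero
        rw [h] at this
        rw [← map_mul]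
        convert this using 2
        ring
      have hvx : A.valuation x ≤ 1 := (ValuationSubring.valuation_le_one_iff A x).2 hx
      rcases lt_or_eq_of_le hvx with hlt | heq
      · -- `x` in the maximal ideal
        have h3 : A.valuation (3 * x ^ 2) < 1 := by
          have : (3 : F) ∈ A := by
            have : (3 : F) = 1 + 1 + 1 := by norm_num
            rw [this]
            exact A.add_mem _ _ (A.add_mem _ _ A.one_mem A.one_mem) A.one_mem
          rw [map_mul, map_pow]
          calc A.valuation 3 * A.valuation x ^ 2 ≤ 1 * A.valuation x ^ 2 := by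
                gcongr
                exact (ValuationSubring.valuation_le_one_iff A 3).2 this
            _ < 1 := by
                rw [one_mul]
                exact pow_lt_one₀ zero_le' hlt two_ne_zero
        rw [show 3 * x ^ 2 - 1 = -(1 - 3 * x ^ 2) by ring, Valuation.map_neg]
        exact Valuation.map_one_sub_of_lt _ h3
      · -- `x ^ 2 - 1` in the maximal ideal
        rw [heq, one_mul] at hxx
        have h3 : A.valuation (3 * (x ^ 2 - 1)) < 1 := by
          have : (3 : F) ∈ A := by
            have : (3 : F) = 1 + 1 + 1 := by norm_num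
            rw [this]
            exact A.add_mem _ _ (A.add_mem _ _ A.one_mem A.one_mem) A.one_mem
          rw [map_mul]
          calc A.valuation 3 * A.valuation (x ^ 2 - 1) ≤ 1 * A.valuation (x ^ 2 - 1) := by
                gcongr
                exact (ValuationSubring.valuation_le_one_iff A 3).2 this
            _ < 1 := by
                rw [one_mul]
                exact hxx
        have h2 : A.valuation (2 : F) = 1 := by
          apply le_antisymm
          · refine (ValuationSubring.valuation_le_one_iff A 2).2 ?_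
            have : (2 : F) = 1 + 1 := by norm_num
            rw [this]
            exact A.add_mem _ _ A.one_mem A.one_mem
          · have hh := (ValuationSubring.valuation_le_one_iff A _).2 (hk ((2 : k)⁻¹))
            have h2k : (2 : k) ≠ 0 := by
              intro h0
              have := congrArg (algebraMap k F) h0
              rw [map_ofNat, map_zero] at this
              exact two_ne_zero this
            rw [map_inv₀, map_ofNat, map_inv₀] at hh
            have hpos : 0 < A.valuation (2 : F) := by
              rw [pos_iff_ne_zero, ne_eq, map_eq_zero]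
              exact two_ne_zero
            exact (inv_le_one₀ hpos).1 hh
        rw [show 3 * x ^ 2 - 1 = 3 * (x ^ 2 - 1) + 2 by ring]
        rw [Valuation.map_add_eq_of_lt_right _ (by rw [h2]; exact h3), h2]
    have hne : 3 * x ^ 2 - 1 ≠ 0 := by
      intro h0
      rw [h0, map_zero] at hv3
      exact zero_ne_one hv3
    have hform : D x / y = 2 * D y * (3 * x ^ 2 - 1)⁻¹ := by
      field_simp
      linear_combination -hrel
    rw [hform]
    refine A.mul_mem _ _ (A.mul_mem _ _ ?_ (hD y hy)) ?_
    · have : (2 : F) = 1 + 1 := by norm_num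
      rw [this]
      exact A.add_mem _ _ A.one_mem A.one_mem
    · rw [← ValuationSubring.valuation_le_one_iff, map_inv₀, hv3, inv_one]

lemma g_mem [CharZero F] (A : ValuationSubring F) (hk : ∀ c : k, algebraMap k F c ∈ A)
    (D : Derivation k F F) (hD : ∀ f ∈ A, D f ∈ A) {x y : F} (h : y ^ 2 = x ^ 3 - x) :
    D x / y ∈ A := by
  by_cases hx : x ∈ A
  · exact g_mem_of_mem A hk D hD h hx
  · have hx0 : x ≠ 0 := by
      rintro rfl
      exact hx A.zero_mem
    have hxi : x⁻¹ ∈ A := (A.mem_or_inv_mem x).resolve_left hx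
    have hx' : -x⁻¹ ∈ A := A.neg_mem _ hxi
    have h' : (y / x ^ 2) ^ 2 = (-x⁻¹) ^ 3 - (-x⁻¹) := by
      field_simp
      rw [h]
      ring
    have hg := g_mem_of_mem A hk D hD h' hx'
    have : D (-x⁻¹) / (y / x ^ 2) = D x / y := by
      rw [map_neg, Derivation.leibniz_inv]
      simp only [smul_eq_mul]
      by_cases hy : y = 0
      · subst hy; simp
      · field_simp
    rwa [this] at hg

end gen


/-! ### the derivation and the coordinate ring -/

section coord

variable {k : Type*} [Field k]

/-- elements of the coordinate ring and their derivatives lie in `A` -/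
lemma coord_mem (A : ValuationSubring (FE k)) (hk : ∀ c : k, algebraMap k (FE k) c ∈ A)
    (D : Derivation k (FE k) (FE k)) (hx : x0 k ∈ A) (hy : y0 k ∈ A)
    (hDx : D (x0 k) ∈ A) (hDy : D (y0 k) ∈ A) (a : (EF k).CoordinateRing) :
    algebraMap (EF k).CoordinateRing (FE k) a ∈ A ∧
      D (algebraMap (EF k).CoordinateRing (FE k) a) ∈ A := by
  induction a using AdjoinRoot.induction_on with
  | ih p =>
    have hmul : ∀ u v : FE k, (u ∈ A ∧ D u ∈ A) → (v ∈ A ∧ D v ∈ A) → (u * v ∈ A ∧ D (u * v) ∈ A) := by
      intro u v hu hv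
      refine ⟨A.mul_mem _ _ hu.1 hv.1, ?_⟩
      rw [Derivation.leibniz]
      simp only [smul_eq_mul]
      exact A.add_mem _ _ (A.mul_mem _ _ hu.1 hv.2) (A.mul_mem _ _ hv.1 hu.2)
    have hadd : ∀ u v : FE k, (u ∈ A ∧ D u ∈ A) → (v ∈ A ∧ D v ∈ A) → (u + v ∈ A ∧ D (u + v) ∈ A) := by
      intro u v hu hv
      refine ⟨A.add_mem _ _ hu.1 hv.1, ?_⟩
      rw [map_add]
      exact A.add_mem _ _ hu.2 hv.2
    have hpow : ∀ (u : FE k) (n : ℕ), (u ∈ A ∧ D u ∈ A) → (u ^ n ∈ A ∧ D (u ^ n) ∈ A) := by
      intro u n hu
      induction n with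
      | zero => simpa using A.zero_mem
      | succ n ih => rw [pow_succ]; exact hmul _ _ ih hu
    -- polynomials in `x`
    have hpx : ∀ q : k[X], algebraMap (EF k).CoordinateRing (FE k)
        (CoordinateRing.mk (EF k) (C q)) ∈ A ∧
        D (algebraMap (EF k).CoordinateRing (FE k) (CoordinateRing.mk (EF k) (C q))) ∈ A := by
      intro q
      induction q using Polynomial.induction_on' with
      | add q r hq hr =>
        rw [C_add, map_add, map_add]
        exact hadd _ _ hq hr
      | monomial n c =>
        have he : algebraMap (EF k).CoordinateRing (FE k)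
            (CoordinateRing.mk (EF k) (C (monomial n c))) =
            algebraMap k (FE k) c * x0 k ^ n := by
          rw [← C_mul_X_pow_eq_monomial, C_mul, C_pow, map_mul, map_mul, map_pow, map_pow]
          rfl
        rw [he]
        refine hmul _ _ ⟨hk c, ?_⟩ (hpow _ _ ⟨hx, hDx⟩)
        rw [Derivation.map_algebraMap]
        exact A.zero_mem
    induction p using Polynomial.induction_on' with
    | add q r hq hr =>
      have : AdjoinRoot.mk (EF k).polynomial (q + r) =
        AdjoinRoot.mk (EF k).polynomial q + AdjoinRoot.mk (EF k).polynomial r := map_add _ _ _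
      rw [this, map_add]
      exact hadd _ _ hq hr
    | monomial n c =>
      have he : algebraMap (EF k).CoordinateRing (FE k)
          (AdjoinRoot.mk (EF k).polynomial (monomial n c)) =
          algebraMap (EF k).CoordinateRing (FE k) (CoordinateRing.mk (EF k) (C c)) * y0 k ^ n := by
        rw [← C_mul_X_pow_eq_monomial, map_mul, map_mul, map_pow, map_pow]
        rfl
      rw [he]
      exact hmul _ _ (hpx c) (hpow _ _ ⟨hy, hDy⟩)

end coord

section main

variable (k : Type*) [Field k]

/-- statement of C4 -/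
def C4St : Prop := ∀ (A : ValuationSubring (FE k)), (∀ c : k, algebraMap k (FE k) c ∈ A) →
    x0 k ∈ A → ∀ f : FE k, f ∈ A →
    ∃ a b : (EF k).CoordinateRing, algebraMap _ (FE k) b ≠ 0 ∧
      f = algebraMap _ (FE k) a / algebraMap _ (FE k) b ∧ (algebraMap _ (FE k) b)⁻¹ ∈ A

lemma derivation_mem_of_mem [CharZero k] [CharZero (FE k)] (h4 : C4St k) (hxy : (y0 k) ^ 2 = (x0 k) ^ 3 - x0 k)
    (D : Derivation k (FE k) (FE k)) (hDx : D (x0 k) = y0 k)
    (hDy : D (y0 k) = (3 * (x0 k) ^ 2 - 1) / 2) (A : ValuationSubring (FE k))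
    (hk : ∀ c : k, algebraMap k (FE k) c ∈ A) (hx : x0 k ∈ A) (f : FE k) (hf : f ∈ A) :
    D f ∈ A := by
  have hy : y0 k ∈ A := y_mem A hxy hx
  have h2 : (2 : FE k)⁻¹ ∈ A := by
    have := hk (2⁻¹ : k)
    rwa [map_inv₀, map_ofNat] at this
  have h3 : (3 : FE k) ∈ A := by
    have := hk (3 : k)
    rwa [map_ofNat] at this
  have hDyA : D (y0 k) ∈ A := by
    rw [hDy, div_eq_mul_inv]
    exact A.mul_mem _ _ (sub_mem (A.mul_mem _ _ h3 (A.pow_mem hx 2)) A.one_mem) h2
  have hDxA : D (x0 k) ∈ A := by rw [hDx]; exact hy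
  obtain ⟨a, b, hb0, hfab, hb⟩ := h4 A hk hx f hf
  have ha := coord_mem A hk D hx hy hDxA hDyA a
  have hb' := coord_mem A hk D hx hy hDxA hDyA b
  have hD : D f = (D (algebraMap _ (FE k) a) * algebraMap _ (FE k) b -
      algebraMap _ (FE k) a * D (algebraMap _ (FE k) b)) * (algebraMap _ (FE k) b)⁻¹ *
        (algebraMap _ (FE k) b)⁻¹ := by
    have h1 : f * algebraMap _ (FE k) b = algebraMap _ (FE k) a := by
      rw [hfab]; field_simp
    have h2 := congrArg D h1
    rw [Derivation.leibniz] at h2
    simp only [smul_eq_mul] at h2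
    rw [← h2, ← h1]
    field_simp
    ring
  rw [hD]
  exact A.mul_mem _ _ (A.mul_mem _ _ (sub_mem (A.mul_mem _ _ ha.2 hb'.1)
    (A.mul_mem _ _ ha.1 hb'.2)) hb) hb

/-- C5 with the dependencies as hypotheses -/
theorem derivation_mem' [CharZero k] [CharZero (FE k)] (h4 : C4St k) (hxy : (y0 k) ^ 2 = (x0 k) ^ 3 - x0 k)
    (htr : Transcendental k (x0 k))
    (hhom : ∀ x y : FE k, y ^ 2 = x ^ 3 - x → Transcendental k x →
      ∃ f : FE k →ₐ[k] FE k, f (x0 k) = x ∧ f (y0 k) = y)
    (hext : ∀ f g : FE k →ₐ[k] FE k, f (x0 k) = g (x0 k) → f (y0 k) = g (y0 k) → f = g)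
    (D : Derivation k (FE k) (FE k)) (hDx : D (x0 k) = y0 k)
    (hDy : D (y0 k) = (3 * (x0 k) ^ 2 - 1) / 2)
    (hcomp : ∀ (ψ : FE k →ₐ[k] FE k) (f : FE k),
      D (ψ f) = (D (ψ (x0 k)) / ψ (y0 k)) * ψ (D f))
    (A : ValuationSubring (FE k))
    (hk : ∀ c : k, algebraMap k (FE k) c ∈ A) (f : FE k) (hf : f ∈ A) : D f ∈ A := by
  by_cases hx : x0 k ∈ A
  · exact derivation_mem_of_mem k h4 hxy D hDx hDy A hk hx f hf
  · have hx0 : x0 k ≠ 0 := by
      intro h0
      exact hx (h0 ▸ A.zero_mem)
    have hy0 : y0 k ≠ 0 := by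
      intro h0
      rw [h0] at hxy
      apply htr
      refine ⟨(Polynomial.X ^ 3 - Polynomial.X : k[X]), ?_, ?_⟩
      · intro h
        have := congrArg (fun p : k[X] => p.coeff 3) h
        simp [coeff_X] at this
      · simp only [map_sub, map_pow, aeval_X]
        linear_combination -hxy
    have hxi : (x0 k)⁻¹ ∈ A := (A.mem_or_inv_mem (x0 k)).resolve_left hx
    have heq : (y0 k / x0 k ^ 2) ^ 2 = (-(x0 k)⁻¹) ^ 3 - (-(x0 k)⁻¹) := by
      field_simp
      rw [hxy]
      ring
    have htr' : Transcendental k (-(x0 k)⁻¹) := by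
      intro halg
      apply htr
      have h1 : IsAlgebraic k ((x0 k)⁻¹) := by simpa using halg.neg
      simpa using h1.inv
    obtain ⟨τ, hτx, hτy⟩ := hhom _ _ heq htr'
    have hττ : τ.comp τ = AlgHom.id k (FE k) := by
      apply hext
      · simp only [AlgHom.comp_apply, AlgHom.id_apply, hτx, map_neg, map_inv₀]
        field_simp
      · simp only [AlgHom.comp_apply, AlgHom.id_apply, hτx, hτy, map_div₀, map_pow]
        field_simp
    have hττ' : ∀ g : FE k, τ (τ g) = g := fun g => by
      have := congrArg (fun φ : FE k →ₐ[k] FE k => φ g) hττ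
      simpa using this
    have hDτ : ∀ g : FE k, D (τ g) = τ (D g) := by
      intro g
      rw [hcomp τ g, hτx, hτy, map_neg, Derivation.leibniz_inv, hDx]
      simp only [smul_eq_mul]
      have : -(-((x0 k)⁻¹) ^ 2 * y0 k) / (y0 k / x0 k ^ 2) = 1 := by
        field_simp
      first
        | rw [this, one_mul]
        | (have h' : -(-(x0 k ^ 2)⁻¹ * y0 k) / (y0 k / x0 k ^ 2) = 1 := by field_simp
           rw [h', one_mul])
    let A' : ValuationSubring (FE k) := A.comap (τ : FE k →+* FE k)
    have hk' : ∀ c : k, algebraMap k (FE k) c ∈ A' := by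
      intro c
      change τ (algebraMap k (FE k) c) ∈ A
      rw [AlgHom.commutes]
      exact hk c
    have hx' : x0 k ∈ A' := by
      change τ (x0 k) ∈ A
      rw [hτx]
      exact A.neg_mem _ hxi
    have hf' : τ f ∈ A' := by
      change τ (τ f) ∈ A
      rw [hττ']
      exact hf
    have h := derivation_mem_of_mem k h4 hxy D hDx hDy A' hk' hx' (τ f) hf'
    have h' : τ (D (τ f)) ∈ A := h
    rwa [hDτ, hττ'] at h'

/-- C6 with the dependencies as hypotheses -/
theorem gQ_mem_range' [CharZero (FE k)]
    (h5 : ∀ f : FE k, (∀ A : ValuationSubring (FE k), (∀ c : k, algebraMap k (FE k) c ∈ A) → f ∈ A) →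
      f ∈ Set.range (algebraMap k (FE k)))
    (D : Derivation k (FE k) (FE k))
    (hD : ∀ A : ValuationSubring (FE k), (∀ c : k, algebraMap k (FE k) c ∈ A) →
      ∀ f : FE k, f ∈ A → D f ∈ A) (Q : Pt (FE k)) :
    gQ D Q ∈ Set.range (algebraMap k (FE k)) := by
  rcases Q with _ | ⟨x, y, h⟩
  · exact ⟨0, by simp [gQ]⟩
  · apply h5
    intro A hk
    have h' : y ^ 2 = x ^ 3 - x := (EF_nonsingular two_ne_zero x y).1 h
    exact g_mem A hk D (hD A hk) h'

end main

end PiPar.H58
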